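import Pool.Agent.Helper6.FT.Stm

/-!
# Notions of hyperbolicity for maps with elliptic terms

Let `k` be an algebraically closed field of characteristic zero. A function field `K` of one
variable over `k` is the function field of a smooth projective curve `C` over `k`; its canonical
degree `canDeg k K` is `2 g - 2`. A point `p` over `K` of a projective variety `X` over `k` is a
morphism `C → X`, and its height `ht k p` is the degree of the morphism.

We consider the morphisms whose homogeneous coordinates are values of polynomials of degree at most
`e` at `r` terms. A term is a function on `C` without zeros and poles outside a finite set `S`, or a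
coordinate `x` or `y` of a morphism from `C` to an elliptic curve `y² = x³ + a x + b` over `k`. So
these are the compositions of arbitrary morphisms from `C` (or `C` without `S`) to products of
elliptic curves (and of multiplicative groups) with rational maps of bounded degree to the
projective space. The degrees of the terms, the elliptic curves, the curve `C` and `X` may vary.
-/

set_option autoImplicit false

namespace Pool.Agent.Results.MP_6f117a_ag.EllipticTermMaps

open FF Polynomial
open Pool.Agent.Helper6.FT

/-- (1) **Moving targets.** For all `n`, `D`, `r`, `e` there is `A` with `MovingBound`: for all curves
and all `X` defined over `K` by forms of degree at most `D` and height at most `h`, the height of a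
point in `r` terms of degree `e` is at most
`A (max (2 g - 2 + |S|) 0 + height of the coefficients + h)`, or the point lies on a rational curve or
on the image of a constant elliptic curve in `X`, of degree at most `A`.

(2) **Exceptional sets.** For all `n`, `D`, `r`, `e` there is `A` with `ExceptionalBound`: for `X`
over `k` the height inequality holds outside the Zariski closure of the rational and elliptic curves
over `k` of degree at most `A` in `X`.

(3) **Equivalences.** For the zero set of a set `X` of forms over `k` of bounded degree the following
are equivalent: there are no nonconstant rational or elliptic curves in it; logarithmic algebraic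
hyperbolicity, algebraic hyperbolicity and boundedness for these maps; all these maps from curves of
genus at most one are constant. -/
theorem result :
    (∀ n D r e : ℕ, ∃ A : ℕ, MovingBound n D r e A) ∧
    (∀ n D r e : ℕ, ∃ A : ℕ, ExceptionalBound n D r e A) ∧
    ∀ (k : Type) [Field k] [CharZero k] [IsAlgClosed k] (n D : ℕ)
      (X : Set (MvPolynomial (Fin (n + 1)) k)), (∀ F ∈ X, ∃ e' ≤ D, F.IsHomogeneous e') →
      List.TFAE [NoCurves X, LogHyp X, AlgHyp X, BddMaps X, LowGenus X] := by
  refine ⟨fun n D r e => ?_, uniform_const, fun k _ _ _ n D X hX => tfae X hX⟩
  obtain ⟨A, hA⟩ := uniform n D r e
  exact ⟨A, fun k K _ _ _ _ _ _ X h h0 hX S F w p h1 h2 h3 =>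
    hA k K (AlgebraicClosure K) X h h0 hX S F w p h1 h2 h3⟩

end Pool.Agent.Results.MP_6f117a_ag.EllipticTermMaps
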