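import Pool.Agent.Helper65.FC.FRAT
import Pool.Agent.Helper65.NC.EQV

/-!
Notions of hyperbolicity for the projective varieties with a finite morphism to a Fermat cover of a
projective space, in the borderline case of Cartan's theorem.
-/

set_option autoImplicit false

open Filter Topology MvPolynomial LinearAlgebra.Projectivization Pool.Agent.W602.GT
  Pool.Agent.N155 Pool.Agent.N155.BB Pool.Agent.Helper65.BF Pool.Agent.Helper65.GG
  Pool.Agent.Helper65.HD Pool.Agent.Helper65.FC Pool.Agent.Helper65.NC

namespace Pool.Agent.Results.MP_6f117a_ag.FermatCoversEquivalence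

/-- Let `2 ≤ N` and `(n - N) (d - N) = N (N + 1)` (equality in Cartan's inequality), and let
`ℓ 0, …, ℓ n` be linear forms in `N + 1` variables, any `N + 1` of them linearly independent. Let
`X = {∑ c l * X l ^ d = 0 for all relations ∑ c l • ℓ l = 0}` be the smooth projective variety of
dimension `N` in `ℙ^n` (the cover of `ℙ^N` given by `X l ^ d = ℓ l`). Let `V` be a closed subset of `X`;
for example, `X` itself. Let `2 N ≤ n`; or let `n = 3` (`N = 2`, `d = 8`), and let `V` contain no line of
`X`; or let the entire curves of bounded derivative in `V` which lie over hyperplanes of `ℙ^N` be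
constant. Let `Y` be a projective variety with a finite morphism to `V`, with arbitrary
singularities and ramification. Then the following are equivalent:

* all holomorphic maps from elliptic curves to `Y` are constant (for a manifold `Y`: `Y` is groupless);
* all holomorphic maps from the complex plane to `Y` are constant (`Y` is Brody hyperbolic);
* the derivatives of the holomorphic maps from the unit disc to `Y` are bounded for the Poincaré
  metric of the disc (`Y` is Kobayashi hyperbolic; by a theorem of Demailly it is then algebraically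
  hyperbolic). -/
theorem result (N n d : ℕ) (hN : 2 ≤ N) (hnd : (n - N) * (d - N) = N * (N + 1))
    (ℓ : Fin (n + 1) → Fin (N + 1) → ℂ) (hℓ : GeneralPosition ℓ)
    (V : Set (Fin (n + 1) → ℂ)) (hV : ClosedCone V) (hVX : V ⊆ Cone (fermatForms ℓ d))
    (hcase : 2 * N ≤ n ∨
      (n = 3 ∧ ∀ P Q, Line (fermatForms ℓ d) P Q →
        ∃ s t : ℂ, s • P + t • Q ≠ 0 ∧ s • P + t • Q ∉ V) ∨
      ∀ f, CurveIn V f → ∀ C : ℝ, DerBetween 0 C f → OverHyperplane ℓ d f →
        ∀ z w, f z = f w)
    (m e : ℕ) (Y : Set (Fin (m + 1) → ℂ)) (G : Fin (n + 1) → MvPolynomial (Fin (m + 1)) ℂ)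
    (hG : FiniteMorphism Y V e G) :
    ((∀ f, CurveIn Y f → DoublyPeriodic f → ∀ z w, f z = f w) ↔
      ∀ f, CurveIn Y f → ∀ z w, f z = f w) ∧
    ((∀ f, CurveIn Y f → DoublyPeriodic f → ∀ z w, f z = f w) ↔ KobayashiHyperbolic Y) := by
  have hpos : 0 < N * (N + 1) := by positivity
  obtain ⟨m', hm⟩ : ∃ m, n = m + N := ⟨n - N, by
    have : n - N ≠ 0 := by
      intro h
      rw [h, zero_mul] at hnd
      omega
    omega⟩
  obtain ⟨e', he⟩ : ∃ e, d = e + N := ⟨d - N, by
    have : d - N ≠ 0 := by
      intro h
      rw [h, mul_zero] at hnd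
      omega
    omega⟩
  subst hm he
  have hme : m' * e' = N * (N + 1) := by simpa using hnd
  have D : Dat (m' + N) N m' e' ℓ := ⟨hℓ, hN, rfl, hme⟩
  have key : FER.MatForms (fermatForms ℓ (e' + N)) V := by
    rcases hcase with h1 | h1 | h1
    · refine FER.closed_mat D hV hVX fun f hf C hb ho => ?_
      exact const_over D (by omega) ⟨hf.1, fun z => hVX (hf.2 z)⟩ hb ho
    · obtain ⟨h1, h2⟩ := h1
      have hN2 : N = 2 := by
        have hm1 : m' ≠ 0 := by
          rintro rfl
          omega
        omega
      subst hN2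
      exact FER.plane_mat hℓ hme hV hVX fun _ => h2
    · exact FER.closed_mat D hV hVX h1
  obtain ⟨S0, c0, hS0, hf0⟩ := key
  have h1 : (∀ f, CurveIn Y f → DoublyPeriodic f → ∀ z w, f z = f w) →
      ∀ f, CurveIn Y f → ∀ z w, f z = f w := by
    intro h f hf
    by_contra hne
    obtain ⟨S, hS1, hS2, -⟩ := FER.cover_gen hVX hG hS0 hf0
    obtain ⟨g, hg, -⟩ := hS2 f hf hne
    obtain ⟨h3, h4, h5⟩ := hS1 g hg
    exact h5 (h g h3 h4)
  exact ⟨⟨h1, fun h f hf _ => h f hf⟩,
    fun h => EQV.kobayashi_of hG.cone (FIN.sub_none (hG.forms hVX).ne) (h1 h),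
    fun h f hf _ => EQV.brody_of h hf⟩

end Pool.Agent.Results.MP_6f117a_ag.FermatCoversEquivalence
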