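import Pool.Agent.Helper65.FC.ALL
import Pool.Agent.Helper65.NC.EQV

/-!
Notions of hyperbolicity for projective varieties with a finite morphism to a projective manifold
with a pseudometric of nonpositive curvature.
-/

set_option autoImplicit false

open Filter Topology MvPolynomial LinearAlgebra.Projectivization Pool.Agent.W602.GT
  Pool.Agent.N155 Pool.Agent.N155.BB Pool.Agent.Helper65.GG Pool.Agent.Helper65.NC
  Pool.Agent.Helper65.FC

namespace Pool.Agent.Results.MP_6f117a_ag.NonpositiveCurvatureEquivalence

/-- Let `X = {F = 0}` be a projective manifold of dimension `d` whose 2-forms are positive outside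
the algebraic set `{Z = 0}` (for example, `Λ² Ω` ample and `Z` empty; if `d = 2`: `X` is a surface of
general type). Let a pseudometric of nonpositive curvature be given on the tangent vectors of `X` or,
more generally, on the jets of some positive order of the holomorphic curves in `X` (`JetMetric`): for
example, a Hermitian or a complex Finsler metric of nonpositive holomorphic sectional curvature; or
let finitely many invariant jet differentials on `X` be given, with values in the trivial line
bundle. Let `W` be a closed subset of `X` (for example, `X` itself) such that an entire curve of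
bounded derivative in `W` is constant if it has length zero (if it is annihilated by all the given
jet differentials) or lies in `{Z = 0}`. Let `Y` be a projective variety (a closed subset of a
projective space) with a finite morphism to `W`, given by the forms `G 0, …, G n`, with arbitrary
singularities and arbitrary ramification; for example, `Y = W`. Then the following are equivalent:

* all holomorphic maps from elliptic curves to `Y` are constant (for a manifold `Y`: `Y` is groupless);
* all holomorphic maps from the complex plane to `Y` are constant (`Y` is Brody hyperbolic);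
* the derivatives of the holomorphic maps from the unit disc to `Y` are bounded for the Poincaré
  metric of the disc (`Y` is Kobayashi hyperbolic; by a theorem of Demailly it is then algebraically
  hyperbolic). -/
theorem result {m n d e : ℕ} {ι ι' κ : Type} (F : ι → MvPolynomial (Fin (n + 1)) ℂ)
    (Z : ι' → MvPolynomial (Fin (n + 1)) ℂ)
    (η : κ → (Fin (n + 1) → ℂ) → (Fin (n + 1) → ℂ) → (Fin (n + 1) → ℂ) → ℂ)
    (null : (ℂ → ℙ ℂ (Fin (n + 1) → ℂ)) → Prop) (W : Set (Fin (n + 1) → ℂ))
    (Y : Set (Fin (m + 1) → ℂ)) (G : Fin (n + 1) → MvPolynomial (Fin (m + 1)) ℂ)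
    (hX : ProjManifold F d) (hZ : ∀ i, IsForm (Z i))
    (hη : PositiveTwoForms (Cone F) (Cone Z) d η) (hN : NullCurves (Cone F) null)
    (hW : ClosedCone W) (hWX : W ⊆ Cone F)
    (hnd : ∀ f, CurveIn W f → ∀ C : ℝ, DerBetween 0 C f →
      (null f ∨ CurveIn (Cone Z) f) → ∀ z w, f z = f w)
    (hG : FiniteMorphism Y W e G) :
    ((∀ f, CurveIn Y f → DoublyPeriodic f → ∀ z w, f z = f w) ↔
      ∀ f, CurveIn Y f → ∀ z w, f z = f w) ∧
    ((∀ f, CurveIn Y f → DoublyPeriodic f → ∀ z w, f z = f w) ↔ KobayashiHyperbolic Y) := by
  have h1 : (∀ f, CurveIn Y f → DoublyPeriodic f → ∀ z w, f z = f w) →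
      ∀ f, CurveIn Y f → ∀ z w, f z = f w := by
    intro h f hf
    by_contra hne
    obtain ⟨S, hS1, hS2, -⟩ := entire_cover hX hZ hη hN hW hWX hnd hG
    obtain ⟨g, hg, -⟩ := hS2 f hf hne
    obtain ⟨h3, h4, h5⟩ := hS1 g hg
    exact h5 (h g h3 h4)
  exact ⟨⟨h1, fun h f hf _ => h f hf⟩,
    fun h => EQV.kobayashi_of hG.cone (FIN.sub_none (hG.forms hWX).ne) (h1 h),
    fun h f hf _ => EQV.brody_of h hf⟩

end Pool.Agent.Results.MP_6f117a_ag.NonpositiveCurvatureEquivalence
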