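import Pool.Agent.Helper6.OD.Eqv2

/-!
# Hyperbolicity and linear recurrences along orbits on curves

Let `X` be a closed subset of the projective `n`-space over an algebraically closed field of
characteristic zero. Some of the conjecturally equivalent notions of hyperbolicity for `X` ask that
there are no nonconstant maps from certain varieties to `X`, others are statements on all rational
points. We compare the simplest notion of the first kind, there are no nonconstant rational or
elliptic curves in `X`, with dynamical notions.

Let `t_0, t_1, t_2, ...` be different points of an irreducible plane curve `F = 0`, `t_(m+1) = φ(t_m)`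
for a rational self-map `φ` of the curve; for instance `t_m = m` or `t_m = q^m` or `t_m = q^(2^m)` on
the line, or an orbit of the multiplication by an integer on an elliptic curve. We consider the
sequences `x_0, x_1, x_2, ...` of points of `X`, whose homogeneous coordinates satisfy linear
recurrences `∑ P_k(t_m) x_(m+k) = 0` with polynomials `P_k` (different for the different
coordinates). Here `r` is the order of the recurrences, and `e` is the bound for the degrees of `F`,
`φ` and the `P_k`.
-/

set_option autoImplicit false

namespace Pool.Agent.Results.MP_6f117a_ag.OrbitRecurrences

open Polynomial
open Pool.Agent.Helper6.FT Pool.Agent.Helper6.OD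

/-- For all algebraically closed fields `K` of characteristic zero, all closed subsets `X` of the
projective `n`-space over `K` given by forms of degree at most `D` (the set `S`) and all sequences
`x_0, ..., x_d` of points of `X` over `K` as above, with recurrences of order at most `r` and degree
at most `e`, two of the points `x_0, ..., x_d` are equal, or one of them lies on a nonconstant
rational curve or on a nonconstant image of an elliptic curve of degree at most `d` in `X`. -/
def RunBound (n D r e d : ℕ) : Prop :=
  ∀ (K : Type) [Field K] [CharZero K] [IsAlgClosed K] (S : Set (MvPolynomial (Fin (n + 1)) K)),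
    (∀ F ∈ S, ∃ e' ≤ D, F.IsHomogeneous e') →
    ∀ (F A₁ A₂ C₀ : K[X][X]) (T : ℕ → K × K), Irreducible F → FOrb e d F A₁ A₂ C₀ T →
    ∀ (P : Fin (n + 1) → ℕ → K[X][X]) (x : ℕ → Fin (n + 1) → K), FRec r e d S P T x →
      (∃ j k, 0 < k ∧ j + k ≤ d ∧ ∀ u v, x (j + k) u * x j v = x (j + k) v * x j u) ∨
        ∃ m ≤ d, OnRat S d (x m) ∨ OnEll K S d (x m)

/-- (1) For all `n`, `D`, `r`, `e` there is `d` with `RunBound n D r e d`.

(2) Let `k` be an algebraically closed field of characteristic zero, and `X` a closed subset of the
projective space over `k`. The following are equivalent: there are no nonconstant rational or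
elliptic curves in `X` (`NoCurves`); for all `r`, `e` there is `d` such that the sequences
`x_0, ..., x_d` of points of `X`, over algebraically closed fields containing `k`, have a repetition
(`RunFin`); all infinite sequences of points of `X` over `k` as above are eventually periodic
(`EvPer`); for all difference fields `L` over `k` the points of `X` over `L`, which satisfy linear
difference equations of order at most `r` and degree at most `e` over a point of a curve, are
periodic, with period at most `d`, where `d` depends only on `X`, `r` and `e` (`DiffPer`). -/
theorem result :
    (∀ n D r e : ℕ, ∃ d : ℕ, RunBound n D r e d) ∧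
    ∀ (k : Type) [Field k] [CharZero k] [IsAlgClosed k] (n D : ℕ)
      (X : Set (MvPolynomial (Fin (n + 1)) k)), (∀ F ∈ X, ∃ e' ≤ D, F.IsHomogeneous e') →
      List.TFAE [NoCurves X, RunFin X, EvPer X, DiffPer X] :=
  ⟨run_uniform, fun _ _ _ _ _ _ _ hX => tfae_dyn hX⟩

end Pool.Agent.Results.MP_6f117a_ag.OrbitRecurrences
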